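import Pool.Agent.Work.MP_db9399_ot.Base
import Pool.Agent.Work.MP_db9399_lh_helper22.NDEC

/-! THEOREM OUT, block NDEC: the near-decomposition (FAC once for every pair of cells and every
key: host edges of a type or edges of a class); modification of the block NDEC of THEOREM LCH by
helper22. -/

set_option autoImplicit false

namespace Pool.Agent.Work.MP_db9399_ot.helper95

open Finset Classical
open Pool.Agent.Work.MP_db9399_all (nb)
open Pool.Agent.Work.MP_db9399_dn (IsMat)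
open Pool.Agent.Work.MP_db9399_bg (den cl LabP Lbl c3f c3 rs rs_symm Ix mem_nb mem_cl
  den_nonneg den_mono c3f_inj mem_c3 two_mul_inj)
open Pool.Agent.Work.MP_db9399_lc (BL)
open Pool.Agent.Work.MP_db9399_lc.helper54 (In2 hdet In2_c3 In2_ne posn posn_lt posn_inj
  exists_In2 card_sdiff_UH)
open Pool.Agent.Work.MP_db9399_lh
open Pool.Agent.Work.MP_db9399_lh.helper22 (ty_unique ty_right Gt As mem_As nb_Gt nb_Gt2 den_n1
  den_n2 den_cell deg_le le_deg card_big)

universe u

/-- position of `s` among the indices of the same key -/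
noncomputable def rk {T : Type} {w : ℕ} (τ : Fin w → T) (s : Fin w) : ℕ :=
  (univ.filter (fun s' => τ s' = τ s ∧ s' < s)).card

theorem rk_lt {T : Type} {w : ℕ} (τ : Fin w → T) (s : Fin w) :
    rk τ s < (univ.filter (fun s' => τ s' = τ s)).card := by
  apply card_lt_card
  rw [Finset.ssubset_iff_of_subset]
  · refine ⟨s, ?_, ?_⟩
    · rw [mem_filter]
      exact ⟨mem_univ _, rfl⟩
    · rw [mem_filter]
      exact fun h => lt_irrefl _ h.2.2
  · intro z hz
    rw [mem_filter] at hz ⊢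
    exact ⟨hz.1, hz.2.1⟩

theorem rk_lt_rk {T : Type} {w : ℕ} {τ : Fin w → T} {s s' : Fin w} (h : τ s = τ s')
    (hs : s < s') : rk τ s < rk τ s' := by
  apply card_lt_card
  rw [Finset.ssubset_iff_of_subset]
  · refine ⟨s, ?_, ?_⟩
    · rw [mem_filter]
      exact ⟨mem_univ _, h, hs⟩
    · rw [mem_filter]
      exact fun h => lt_irrefl _ h.2.2
  · intro z hz
    rw [mem_filter] at hz ⊢
    exact ⟨hz.1, hz.2.1.trans h, hz.2.2.trans hs⟩

theorem rk_inj {T : Type} {w : ℕ} {τ : Fin w → T} {s s' : Fin w} (h : τ s = τ s')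
    (hs : rk τ s = rk τ s') : s = s' := by
  rcases lt_trichotomy s s' with h1 | h1 | h1
  · exact absurd hs (rk_lt_rk h h1).ne
  · exact h1
  · exact absurd hs.symm (rk_lt_rk h.symm h1).ne

section
variable {V : Type u} [Fintype V] {l m r K K1 S : ℕ} {w : ℕ}

/-- from the matchings of the pairs to the near-decomposition -/
theorem combine {T : Type} {UH : Finset V} {lab : V → Lh l m r K K1 S} (key : Fin w → T)
    (GK : T → SimpleGraph V) (tk : T → Option (ZMod 3))
    (hK : ∀ t t' v v', (GK t).Adj v v' → (GK t').Adj v v' → t = t')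
    (MM : ZMod (2 * m + 1) → Fin m → T → ℕ → SimpleGraph V)
    (h1 : ∀ a y t i, MM a y t i ≤ GK t ∧ IsMat (MM a y t i))
    (h2 : ∀ a y t i v v', (MM a y t i).Adj v v' →
      (v ∈ As (tk t) UH lab (a + ((y : ℕ) + 1 : ℕ)) ∧
        v' ∈ As (tk t) UH lab (a - ((y : ℕ) + 1 : ℕ))) ∨
      (v ∈ As (tk t) UH lab (a - ((y : ℕ) + 1 : ℕ)) ∧
        v' ∈ As (tk t) UH lab (a + ((y : ℕ) + 1 : ℕ))))
    (h3 : ∀ a y t i j, i ≠ j → ∀ v v', (MM a y t i).Adj v v' → ¬ (MM a y t j).Adj v v')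
    (h4 : ∀ a (y : Fin m) t i, i < (m - 1) * (univ.filter (fun s => key s = t)).card →
      ∀ v ∈ As (tk t) UH lab (a + ((y : ℕ) + 1 : ℕ)) ∪ As (tk t) UH lab (a - ((y : ℕ) + 1 : ℕ)),
      v ∉ univ.filter (fun v => kp (lab v) = a ∧ io (lab v) = 0) →
      (nb (MM a y t i) v).Nonempty) :
    ∃ Nd : Ix m w → SimpleGraph V, (∀ x, Nd x ≤ GK (key x.2.2)) ∧ (∀ x, IsMat (Nd x)) ∧
      (∀ x v v', (Nd x).Adj v v' → v ∉ UH ∧ ce (lab v) ∉ c3 x.1 x.2.1 ∧
        ce (lab v) + ce (lab v') = 2 * x.1) ∧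
      (∀ x x', x ≠ x' → ∀ v v', (Nd x).Adj v v' → ¬ (Nd x').Adj v v') ∧
      ∀ x v, v ∉ UH → ce (lab v) ∉ c3 x.1 x.2.1 → tk (key x.2.2) ≠ some (pt (lab v)) →
        ¬ (kp (lab v) = x.1 ∧ io (lab v) = 0) → (nb (Nd x) v).Nonempty := by
  set W : Fin w → ℕ := fun s => (univ.filter (fun s' => key s' = key s)).card with hW
  have hidx : ∀ (x : Ix m w) (y : Fin m), y ≠ x.2.1 →
      posn x.2.1 y * W x.2.2 + rk key x.2.2 < (m - 1) * W x.2.2 := by
    intro x y hy
    have h5 := posn_lt hy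
    have h6 : rk key x.2.2 < W x.2.2 := rk_lt key x.2.2
    have h7 : (posn x.2.1 y + 1) * W x.2.2 ≤ (m - 1) * W x.2.2 :=
      Nat.mul_le_mul_right _ (by omega)
    rw [add_mul, one_mul] at h7
    omega
  set Nd : Ix m w → SimpleGraph V := fun x =>
    { Adj := fun v v' => ∃ y : Fin m, y ≠ x.2.1 ∧
        (MM x.1 y (key x.2.2) (posn x.2.1 y * W x.2.2 + rk key x.2.2)).Adj v v'
      symm := ⟨fun v v' ⟨y, hy, h⟩ => ⟨y, hy, h.symm⟩⟩
      loopless := ⟨fun v ⟨y, hy, h⟩ => (MM x.1 y _ _).loopless.irrefl v h⟩ } with hNd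
  have hAdj : ∀ x v v', (Nd x).Adj v v' ↔ ∃ y : Fin m, y ≠ x.2.1 ∧
      (MM x.1 y (key x.2.2) (posn x.2.1 y * W x.2.2 + rk key x.2.2)).Adj v v' := by
    intro x v v'
    rfl
  -- the cell of an end determines `y`
  have hIn : ∀ a y t i v v', (MM a y t i).Adj v v' → In2 a y (ce (lab v)) := by
    intro a y t i v v' h
    rcases h2 a y t i v v' h with ⟨h5, -⟩ | ⟨h5, -⟩
    · exact Or.inl (mem_As.1 h5).1
    · exact Or.inr (mem_As.1 h5).1
  have hsum : ∀ a y t i v v', (MM a y t i).Adj v v' → ce (lab v) + ce (lab v') = 2 * a := by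
    intro a y t i v v' h
    rcases h2 a y t i v v' h with ⟨h5, h6⟩ | ⟨h5, h6⟩
    · rw [(mem_As.1 h5).1, (mem_As.1 h6).1]
      ring
    · rw [(mem_As.1 h5).1, (mem_As.1 h6).1]
      ring
  refine ⟨Nd, ?_, ?_, ?_, ?_, ?_⟩
  · intro x v v' h
    obtain ⟨y, hy, h⟩ := (hAdj x v v').1 h
    exact (h1 _ _ _ _).1 h
  · intro x v
    rw [Finset.card_le_one]
    intro z1 hz1 z2 hz2
    rw [mem_nb, hAdj] at hz1 hz2
    obtain ⟨y1, hy1, hz1⟩ := hz1
    obtain ⟨y2, hy2, hz2⟩ := hz2
    have h5 : y1 = y2 := hdet (hIn _ _ _ _ _ _ hz1) (hIn _ _ _ _ _ _ hz2)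
    subst h5
    have h6 := (h1 x.1 y1 (key x.2.2) (posn x.2.1 y1 * W x.2.2 + rk key x.2.2)).2 v
    rw [Finset.card_le_one] at h6
    exact h6 z1 (mem_nb.2 hz1) z2 (mem_nb.2 hz2)
  · intro x v v' h
    obtain ⟨y, hy, h⟩ := (hAdj x v v').1 h
    have h5 := hIn _ _ _ _ _ _ h
    refine ⟨?_, ?_, hsum _ _ _ _ _ _ h⟩
    · rcases h2 _ _ _ _ v v' h with ⟨h6, -⟩ | ⟨h6, -⟩
      · exact (mem_As.1 h6).2.1
      · exact (mem_As.1 h6).2.1
    · intro h6
      rcases mem_c3.1 h6 with h7 | h7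
      · exact In2_ne h5 h7
      · exact hy (hdet h5 h7)
  · intro x x' hne v v' h h'
    obtain ⟨y, hy, h⟩ := (hAdj x v v').1 h
    obtain ⟨y', hy', h'⟩ := (hAdj x' v v').1 h'
    obtain ⟨a, hh, s⟩ := x
    obtain ⟨a', hh', s'⟩ := x'
    simp only at h h' hy hy'
    have h5 : a = a' := two_mul_inj ((hsum _ _ _ _ _ _ h).symm.trans (hsum _ _ _ _ _ _ h'))
    subst h5
    have h6 : y = y' := hdet (hIn _ _ _ _ _ _ h) (hIn _ _ _ _ _ _ h')
    subst h6
    have ht : key s = key s' := hK _ _ v v' ((h1 _ _ _ _).1 h) ((h1 _ _ _ _).1 h')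
    have hWs : W s' = W s := by
      rw [hW]
      simp only [ht]
    rw [← ht, hWs] at h'
    refine h3 a y _ _ _ ?_ v v' h h'
    intro h7
    have hs : rk key s < W s := rk_lt key s
    have hs' : rk key s' < W s := by
      rw [← hWs]
      exact rk_lt key s'
    have h8 : posn hh y = posn hh' y ∧ rk key s = rk key s' := by
      have hw : 0 < W s := by omega
      have e1 : (posn hh y * W s + rk key s) / W s = posn hh y := by
        rw [mul_comm, Nat.mul_add_div hw, Nat.div_eq_of_lt hs, add_zero]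
      have e2 : (posn hh' y * W s + rk key s') / W s = posn hh' y := by
        rw [mul_comm, Nat.mul_add_div hw, Nat.div_eq_of_lt hs', add_zero]
      have e3 : posn hh y = posn hh' y := by
        rw [← e1, ← e2, h7]
      refine ⟨e3, ?_⟩
      rw [e3] at h7
      omega
    have h9 : hh = hh' := posn_inj hy hy' h8.1
    have h10 : s = s' := rk_inj ht h8.2
    rw [h9, h10] at hne
    exact hne rfl
  · intro x v hv hc hτ hJ
    have h5 : ce (lab v) ≠ x.1 := by
      intro h6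
      exact hc (mem_c3.2 (Or.inl h6))
    obtain ⟨y, hy⟩ := exists_In2 h5
    have hyx : y ≠ x.2.1 := by
      rintro rfl
      exact hc (In2_c3 hy)
    have h6 := h4 x.1 y (key x.2.2) (posn x.2.1 y * W x.2.2 + rk key x.2.2) (hidx x y hyx) v (by
      rw [mem_union, mem_As, mem_As]
      rcases hy with hy | hy
      · exact Or.inl ⟨hy, hv, hτ⟩
      · exact Or.inr ⟨hy, hv, hτ⟩) (by
      rw [mem_filter]
      exact fun h7 => hJ h7.2)
    obtain ⟨z, hz⟩ := h6
    rw [mem_nb] at hz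
    exact ⟨z, mem_nb.2 ((hAdj x v z).2 ⟨y, hyx, hz⟩)⟩

/-- neighbours through edges of a class -/
theorem nb_Gc {G : SimpleGraph V} {UH : Finset V} {lab : V → Lh l m r K K1 S} (v : V)
    (b : ZMod (2 * m + 1)) :
    nb G v ∩ As none UH lab b = (nb G v ∩ cl lab (cy {b} univ)) \ UH := by
  ext z
  rw [mem_inter, mem_nb, mem_As, mem_sdiff, mem_inter, mem_nb, mem_cl, mem_cy, mem_singleton]
  constructor
  · rintro ⟨h1, h3, h4, h5⟩
    exact ⟨⟨h1, h3, mem_univ _⟩, h4⟩
  · rintro ⟨⟨h1, h3, -⟩, h4⟩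
    exact ⟨h1, h3, h4, by simp⟩

theorem nb_Gc2 {G : SimpleGraph V} {UH : Finset V} {lab : V → Lh l m r K K1 S} (v : V)
    (a b : ZMod (2 * m + 1)) :
    (nb G v ∩ cl lab (bb {b} univ univ {a} {0} univ)) \ UH ⊆ nb G v ∩ As none UH lab b ∩
        univ.filter (fun v => kp (lab v) = a ∧ io (lab v) = 0) := by
  intro z hz
  rw [mem_sdiff, mem_inter, mem_nb, mem_cl, mem_bb, mem_singleton,
    mem_singleton, mem_singleton] at hz
  obtain ⟨⟨h1, h2, -, -, h4, h5, -⟩, h6⟩ := hz
  rw [mem_inter, mem_inter, mem_nb, mem_As, mem_filter]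
  exact ⟨⟨h1, h2, h6, by simp⟩, mem_univ _, h4, h5⟩

theorem card_Cr : ((univ : Finset (Cr l S)).card : ℝ) = (2 * (l : ℝ) + 1) * (3 * ((S : ℝ) + 1)) := by
  rw [card_univ]
  unfold Cr
  rw [Fintype.card_prod, Fintype.card_prod, card_zmod, ZMod.card, ZMod.card]
  push_cast
  ring

theorem den_c1 (b : ZMod (2 * m + 1)) :
    den (cy {b} univ : Finset (Lh l m r K K1 S)) = 1 / (2 * m + 1) := by
  rw [den_cy, card_singleton, card_Cr]
  have h2 : (0 : ℝ) < 2 * (l : ℝ) + 1 := by positivity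
  have h3 : (0 : ℝ) < (S : ℝ) + 1 := by positivity
  have h4 : (0 : ℝ) < 2 * (m : ℝ) + 1 := by positivity
  push_cast
  field_simp

theorem den_c2 (a b : ZMod (2 * m + 1)) :
    den (bb {b} univ univ {a} {0} univ : Finset (Lh l m r K K1 S)) =
      1 / (2 * m + 1) / ((2 * m + 1) * (K + 1)) := by
  rw [den_bb, card_Cr]
  simp only [card_univ, Fintype.card_fin, card_singleton]
  have h1 : (0 : ℝ) < 2 * (m : ℝ) + 1 := by positivity
  have h2 : (0 : ℝ) < (r : ℝ) + 1 := by positivity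
  have h3 : (0 : ℝ) < (K : ℝ) + 1 := by positivity
  have h4 : (0 : ℝ) < (K1 : ℝ) + 1 := by positivity
  have h5 : (0 : ℝ) < 2 * (l : ℝ) + 1 := by positivity
  have h6 : (0 : ℝ) < (S : ℝ) + 1 := by positivity
  push_cast
  field_simp

/-- one key: FAC for every pair of cells -/
theorem one_key (hFAC : Pool.Agent.Work.MP_db9399_bg.Stmt_FAC.{u}) {UH : Finset V}
    {lab : V → Lh l m r K K1 S} (hm : 2 ≤ m) (t : Option (ZMod 3)) (GK : SimpleGraph V)
    (q δ : ℝ) (D' : ℕ) (hq : 0 < q)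
    (hδ : δ = 1 / (40 * (2 * (m : ℝ) + 1) ^ 2 * (K + 1)))
    (hD : (D' : ℝ) ≤ (1 - 1 / (2 * (m : ℝ) + 1)) * q)
    (hdeg : ∀ v b, t ≠ some (pt (lab v)) →
      |((nb GK v ∩ As t UH lab b).card : ℝ) - q| ≤ δ * q)
    (hop : ∀ v a b, t ≠ some (pt (lab v)) → 1 / (2 * (2 * (m : ℝ) + 1) * (K + 1)) * q ≤
      ((nb GK v ∩ As t UH lab b ∩
      univ.filter (fun v => kp (lab v) = a ∧ io (lab v) = 0)).card : ℝ))
    (hcard : ∀ b, 2 * D' ≤ (As t UH lab b).card) (a : ZMod (2 * m + 1)) (y : Fin m) :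
    ∃ M : ℕ → SimpleGraph V,
      (∀ i, M i ≤ GK ∧ IsMat (M i)) ∧
      (∀ i v v', (M i).Adj v v' →
        (v ∈ As t UH lab (a + ((y : ℕ) + 1 : ℕ)) ∧ v' ∈ As t UH lab (a - ((y : ℕ) + 1 : ℕ))) ∨
        (v ∈ As t UH lab (a - ((y : ℕ) + 1 : ℕ)) ∧ v' ∈ As t UH lab (a + ((y : ℕ) + 1 : ℕ)))) ∧
      (∀ i j, i ≠ j → ∀ v v', (M i).Adj v v' → ¬ (M j).Adj v v') ∧
      ∀ i, i < D' →
        ∀ v ∈ As t UH lab (a + ((y : ℕ) + 1 : ℕ)) ∪ As t UH lab (a - ((y : ℕ) + 1 : ℕ)),
        v ∉ univ.filter (fun v => kp (lab v) = a ∧ io (lab v) = 0) →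
        (nb (M i) v).Nonempty := by
  have hm0 : (0 : ℝ) < 2 * (m : ℝ) + 1 := by positivity
  have hK0 : (0 : ℝ) < (K : ℝ) + 1 := by positivity
  have hK1 : (1 : ℝ) ≤ (K : ℝ) + 1 := by
    have : (0 : ℝ) ≤ K := Nat.cast_nonneg _
    linarith
  set N : ℝ := 2 * (m : ℝ) + 1 with hN
  have hN5 : 5 ≤ N := by
    have : (2 : ℝ) ≤ m := by exact_mod_cast hm
    rw [hN]
    linarith
  have hδ0 : 0 < δ := by
    rw [hδ]
    positivity
  obtain ⟨M, hM1, hM2, hM3, hM4⟩ := hFAC GK q (1 / N) (1 / (2 * N * (K + 1))) δ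
    D' (As t UH lab (a + ((y : ℕ) + 1 : ℕ))) (As t UH lab (a - ((y : ℕ) + 1 : ℕ)))
    (univ.filter (fun v => kp (lab v) = a ∧ io (lab v) = 0)) hq (by positivity)
    (by
      rw [div_le_one hm0]
      linarith) (by positivity)
    (by
      rw [div_le_one (by positivity)]
      have e2 : 2 * N * 1 ≤ 2 * N * ((K : ℝ) + 1) :=
        mul_le_mul_of_nonneg_left hK1 (by positivity)
      linarith) hδ0.le
    (by
      rw [hδ]
      have h3 : 20 * (1 / (40 * N ^ 2 * ((K : ℝ) + 1))) =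
          1 / N * (1 / (2 * N * (K + 1))) := by
        field_simp
        norm_num
      exact h3.le) hD
    (by
      rw [Finset.disjoint_left]
      intro v hv hv'
      have h3 := (mem_As.1 hv).1
      have h4 := (mem_As.1 hv').1
      rw [h3] at h4
      have h5 := c3f_inj a y
      have h6 : c3f a y 1 = c3f a y 2 := h4
      exact absurd (h5 h6) (by decide)) (hcard _) (hcard _)
    (fun v hv => hdeg v _ (mem_As.1 hv).2.2)
    (fun v hv => hdeg v _ (mem_As.1 hv).2.2) (fun v hv => hop v _ _ (mem_As.1 hv).2.2)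
    (fun v hv => hop v _ _ (mem_As.1 hv).2.2)
  refine ⟨fun i => if h : i < D' then M ⟨i, h⟩ else ⊥, ?_, ?_, ?_, ?_⟩
  · intro i
    by_cases h : i < D'
    · simp only [h, dif_pos]
      exact hM1 _
    · simp only [h, dif_neg, not_false_eq_true]
      refine ⟨bot_le, ?_⟩
      intro v
      have : nb (⊥ : SimpleGraph V) v = ∅ := by
        ext z
        rw [mem_nb]
        simp
      rw [this]
      simp
  · intro i v v' hv
    by_cases h : i < D'
    · simp only [h, dif_pos] at hv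
      exact hM2 _ v v' hv
    · simp only [h, dif_neg, not_false_eq_true] at hv
      exact absurd hv (by simp)
  · intro i j hij v v' hv hv'
    by_cases h : i < D'
    · by_cases h' : j < D'
      · simp only [h, h', dif_pos] at hv hv'
        exact hM3 ⟨i, h⟩ ⟨j, h'⟩ (fun h3 => hij (Fin.mk.injEq .. ▸ h3)) v v' hv hv'
      · simp only [h', dif_neg, not_false_eq_true] at hv'
        exact absurd hv' (by simp)
    · simp only [h, dif_neg, not_false_eq_true] at hv
      exact absurd hv (by simp)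
  · intro i h v hv hv'
    simp only [h, dif_pos]
    exact hM4 ⟨i, h⟩ v hv hv'

end

theorem stmt_NDEC (hFAC : Pool.Agent.Work.MP_db9399_bg.Stmt_FAC.{u}) : Stmt_NDEC.{u} := by
  intro g gh n l m r K K1 S ν hg hgh hl hm hν
  have hm0 : (0 : ℝ) < 2 * (m : ℝ) + 1 := by positivity
  have hl0 : (0 : ℝ) < 2 * (l : ℝ) + 1 := by positivity
  have hK0 : (0 : ℝ) < (K : ℝ) + 1 := by positivity
  have hn0 : (0 : ℝ) < (n : ℝ) + 1 := by positivity
  have hK1 : (1 : ℝ) ≤ (K : ℝ) + 1 := by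
    have : (0 : ℝ) ≤ K := Nat.cast_nonneg _
    linarith
  set N : ℝ := 2 * (m : ℝ) + 1 with hN
  have hN5 : 5 ≤ N := by
    have : (2 : ℝ) ≤ m := by exact_mod_cast hm
    rw [hN]
    linarith
  -- the proportions
  have hf0 : 0 < f0 l S ν := by
    have h1 := f0_ge l S ν
    have h2 : 3 / (2 * (l : ℝ) + 1) ≤ 3 / 7 := by
      have : (3 : ℝ) ≤ l := by exact_mod_cast hl
      apply div_le_div_of_nonneg_left (by norm_num) (by norm_num)
      linarith
    linarith
  have hfq : 0 < fq l S ν := fq_pos l S ν hν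
  set μ0 : ℝ := min (min (f0 l S ν) (fq l S ν)) 1 with hμ0
  have hμ : 0 < μ0 := lt_min (lt_min hf0 hfq) one_pos
  have hμ1 : μ0 ≤ 1 := min_le_right _ _
  have hft0 : ∀ t, μ0 ≤ ft l S ν t := by
    intro t
    refine (min_le_left _ _).trans ?_
    unfold ft
    split_ifs
    · exact min_le_left _ _
    · exact min_le_right _ _
  have hft1 : ∀ t, ft l S ν t ≤ 1 := by
    intro t
    unfold ft
    split_ifs
    · exact f0_le l S ν hν
    · have h1 := fq_le l S ν
      have h2 : 2 / (3 * (2 * (l : ℝ) + 1)) ≤ 1 := by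
        rw [div_le_one (by positivity)]
        have : (0 : ℝ) ≤ l := Nat.cast_nonneg _
        linarith
      linarith
  set δ : ℝ := 1 / (40 * N ^ 2 * (K + 1)) with hδ
  have hδ0 : 0 < δ := by positivity
  set σ : ℝ := δ * μ0 / (8 * N) with hσ
  have hσ0 : 0 < σ := by positivity
  have hδ1 : δ ≤ 1 / 1000 := by
    rw [hδ]
    apply one_div_le_one_div_of_le (by norm_num)
    have e1 : 5 * 5 ≤ N * N := mul_le_mul hN5 hN5 (by norm_num) (by linarith)
    have e2 : 40 * N ^ 2 * 1 ≤ 40 * N ^ 2 * ((K : ℝ) + 1) :=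
      mul_le_mul_of_nonneg_left hK1 (by positivity)
    rw [pow_two] at e2 ⊢
    linarith
  refine ⟨σ, δ / 4, ⌈4 * (n + 1) / σ⌉₊ + 1, hσ0, by positivity, ?_⟩
  intro V _ G H Q Gc d D w c1 UH lab τ ι hd hS h2 hιτ hw hwc
  have hd1 : 0 < d := by omega
  have hd1' : (0 : ℝ) < d := by exact_mod_cast hd1
  have hdD : (d : ℝ) ≤ 2 * ((n : ℝ) + 1) * D := hS.cls.d2D (by linarith)
  have h2σ : 2 ≤ σ * D := by
    have h3 : 4 * ((n : ℝ) + 1) / σ ≤ (d : ℝ) := (Nat.le_ceil _).trans (by
      have : ⌈4 * ((n : ℝ) + 1) / σ⌉₊ ≤ d := by omega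
      exact_mod_cast this)
    rw [div_le_iff₀ hσ0] at h3
    have h4 : (d : ℝ) * σ ≤ 2 * ((n : ℝ) + 1) * D * σ := mul_le_mul_of_nonneg_right hdD hσ0.le
    have h5 : ((n : ℝ) + 1) * 4 ≤ ((n : ℝ) + 1) * (2 * (σ * D)) := by linarith
    have h6 := le_of_mul_le_mul_left h5 hn0
    linarith
  have hD1' : (0 : ℝ) < D := by
    by_contra h3
    have h4 : (D : ℝ) = 0 := le_antisymm (not_lt.mp h3) (Nat.cast_nonneg _)
    rw [h4] at h2σ
    linarith
  have hD1 : 0 < D := by exact_mod_cast hD1'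
  have hVc : 3 * (D : ℝ) ≤ Fintype.card V := by exact_mod_cast hS.bh.big
  have h2H : ∀ v, (nb H v ∩ UH).card ≤ 2 := by
    intro v
    refine (card_le_card ?_).trans (h2 v)
    intro z hz
    rw [mem_inter, mem_nb] at hz ⊢
    exact ⟨hS.cls.HG hz.1, hz.2⟩
  have h2c : ∀ i v, (nb (Gc i) v ∩ UH).card ≤ 2 := by
    intro i v
    refine (card_le_card ?_).trans (h2 v)
    intro z hz
    rw [mem_inter, mem_nb] at hz ⊢
    exact ⟨hS.cls.GG i hz.1, hz.2⟩
  -- keys
  set key : Fin w → Option (ZMod 3) ⊕ Fin n := fun s =>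
    match ι s with
    | none => Sum.inl (τ s)
    | some i => Sum.inr i with hkey
  set GK : Option (ZMod 3) ⊕ Fin n → SimpleGraph V := fun κ =>
    match κ with
    | Sum.inl t => Gt ν t H lab
    | Sum.inr i => Gc i with hGK
  set tk : Option (ZMod 3) ⊕ Fin n → Option (ZMod 3) := fun κ =>
    match κ with
    | Sum.inl t => t
    | Sum.inr _ => none with htk
  set fk : Option (ZMod 3) ⊕ Fin n → ℝ := fun κ =>
    match κ with
    | Sum.inl t => ft l S ν t
    | Sum.inr _ => 1 with hfk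
  have hfk0 : ∀ κ, μ0 ≤ fk κ := by
    rintro (t | i)
    · exact hft0 t
    · exact hμ1
  have hfk1 : ∀ κ, fk κ ≤ 1 := by
    rintro (t | i)
    · exact hft1 t
    · exact le_refl _
  set q : Option (ZMod 3) ⊕ Fin n → ℝ := fun κ => fk κ * D / N with hq
  have hq0 : ∀ κ, 0 < q κ := by
    intro κ
    have h3 : 0 < fk κ := lt_of_lt_of_le hμ (hfk0 κ)
    simp only [hq]
    positivity
  have hσq : ∀ κ, σ * D ≤ δ * q κ / 8 := by
    intro κ
    have h3 : σ * D = δ * (μ0 * D / N) / 8 := by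
      rw [hσ]
      field_simp
    rw [h3]
    have h4 : μ0 * D / N ≤ q κ := by
      simp only [hq]
      apply div_le_div_of_nonneg_right _ hm0.le
      exact mul_le_mul_of_nonneg_right (hfk0 κ) hD1'.le
    have h5 : δ * (μ0 * D / N) ≤ δ * q κ := mul_le_mul_of_nonneg_left h4 hδ0.le
    linarith
  have hqd : ∀ κ, q κ ≤ D / N := by
    intro κ
    simp only [hq]
    apply div_le_div_of_nonneg_right _ hm0.le
    exact mul_le_of_le_one_left hD1'.le (hfk1 κ)
  have hkinl : ∀ s t, key s = Sum.inl t ↔ ι s = none ∧ τ s = t := by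
    intro s t
    simp only [hkey]
    cases h3 : ι s with
    | none => simp
    | some i => simp
  have hkinr : ∀ s i, key s = Sum.inr i ↔ ι s = some i := by
    intro s i
    simp only [hkey]
    cases h3 : ι s with
    | none => simp
    | some i => simp
  set Dt : Option (ZMod 3) ⊕ Fin n → ℕ := fun κ =>
    (m - 1) * (univ.filter (fun s => key s = κ)).card with hDt
  have hm1 : ((m - 1 : ℕ) : ℝ) = (m : ℝ) - 1 := by
    rw [Nat.cast_sub (by omega)]
    simp
  have hD : ∀ κ, ((Dt κ : ℕ) : ℝ) ≤ (1 - 1 / N) * q κ := by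
    rintro (t | i)
    · have h4 : (univ.filter (fun s => key s = Sum.inl t)) =
          univ.filter (fun s => ι s = none ∧ τ s = t) := by
        ext s
        rw [mem_filter, mem_filter, hkinl]
      simp only [hDt, hq]
      rw [Nat.cast_mul, hm1, h4]
      exact hw t
    · have h4 : (univ.filter (fun s => key s = Sum.inr i)) =
          univ.filter (fun s => ι s = some i) := by
        ext s
        rw [mem_filter, mem_filter, hkinr]
      simp only [hDt, hq]
      rw [Nat.cast_mul, hm1, h4]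
      refine (hwc i).trans (le_of_eq ?_)
      simp only [hfk]
      rw [one_mul]
  -- degrees
  have hone : ∀ (GG : SimpleGraph V) (v : V) (P : Finset (Lh l m r K K1 S)) (X : Finset V)
      (κ : Option (ZMod 3) ⊕ Fin n), LabP GG D σ c1 lab →
      |((nb GG v).card : ℝ) - D| ≤ δ / 4 * D → (nb GG v ∩ UH).card ≤ 2 →
      (X = (nb GG v ∩ cl lab P) \ UH) → ∀ ρ : ℝ, 0 ≤ ρ → ρ ≤ q κ → den P * D = ρ →
      |(X.card : ℝ) - ρ| ≤ δ * q κ := by
    intro GG v P X κ hL hdv hU hX ρ hρ0 hρ hden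
    subst hX
    obtain ⟨h3, h4⟩ := card_sdiff_UH (A := nb GG v ∩ cl lab P) inter_subset_left hU
    have h5 := abs_le.mp (hL.deg v P)
    have h6 := abs_le.mp hdv
    have hdn : 0 ≤ den P := den_nonneg P
    have h7 : den P * ((nb GG v).card : ℝ) ≤ ρ + δ / 4 * ρ := by
      have e1 : den P * ((nb GG v).card : ℝ) ≤ den P * (D + δ / 4 * D) :=
        mul_le_mul_of_nonneg_left (by linarith) hdn
      have e2 : den P * (D + δ / 4 * D) = ρ + δ / 4 * ρ := by
        rw [← hden]
        ring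
      linarith
    have h8 : ρ - δ / 4 * ρ ≤ den P * ((nb GG v).card : ℝ) := by
      have e1 : den P * (D - δ / 4 * D) ≤ den P * ((nb GG v).card : ℝ) :=
        mul_le_mul_of_nonneg_left (by linarith) hdn
      have e2 : den P * (D - δ / 4 * D) = ρ - δ / 4 * ρ := by
        rw [← hden]
        ring
      linarith
    have h9 : δ / 4 * ρ ≤ δ / 4 * q κ := mul_le_mul_of_nonneg_left hρ (by linarith)
    have h10 := hσq κ
    have h11 : 0 < δ * q κ := mul_pos hδ0 (hq0 κ)
    rw [abs_le]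
    constructor <;> linarith [h5.1, h5.2]
  have hdH : ∀ v, |((nb H v).card : ℝ) - D| ≤ δ / 4 * D := by
    intro v
    have h3 : ((nb H v).card : ℝ) ≤ D := by exact_mod_cast hS.bh.deg v
    have h4 := hS.bh.low v
    have h5 : 0 ≤ δ / 4 * D := by positivity
    rw [abs_le]
    constructor <;> linarith
  have hdeg : ∀ κ v b, tk κ ≠ some (pt (lab v)) →
      |((nb (GK κ) v ∩ As (tk κ) UH lab b).card : ℝ) - q κ| ≤ δ * q κ := by
    rintro (t | i) v b hv
    · refine hone H v (cy {b} (univ.filter (fun c' => ty ν t (cr (lab v)) c'))) _ (Sum.inl t)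
        hS.labH (hdH v) (h2H v) (nb_Gt v b) _ (hq0 (Sum.inl t)).le le_rfl ?_
      rw [den_n1 hl ν hν t _ hv]
      simp only [hq, hfk]
      rw [hN]
      ring
    · refine hone (Gc i) v (cy {b} univ) _ (Sum.inr i)
        (hS.labc i) (hS.cls.reg i v) (h2c i v) (nb_Gc v b) _ (hq0 (Sum.inr i)).le le_rfl ?_
      rw [den_c1]
      simp only [hq, hfk]
      rw [hN]
      ring
  have hop : ∀ κ v a b, tk κ ≠ some (pt (lab v)) → 1 / (2 * N * (K + 1)) * q κ ≤
      ((nb (GK κ) v ∩ As (tk κ) UH lab b ∩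
      univ.filter (fun v => kp (lab v) = a ∧ io (lab v) = 0)).card : ℝ) := by
    have hfin : ∀ κ, ∀ x : ℝ, |x - q κ / (N * (K + 1))| ≤ δ * q κ →
        1 / (2 * N * (K + 1)) * q κ ≤ x := by
      intro κ x hx
      have hqt := hq0 κ
      have h9 : δ * q κ ≤ 1 / 40 * (q κ / (N * (K + 1))) := by
        have h10 : δ * q κ = 1 / 40 * (q κ / (N * (K + 1))) * (1 / N) := by
          rw [hδ]
          field_simp
        rw [h10]
        have h11 : 1 / N ≤ 1 := by
          rw [div_le_one hm0]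
          linarith
        have h12 : 0 ≤ 1 / 40 * (q κ / (N * (K + 1))) := by positivity
        exact mul_le_of_le_one_right h12 h11
      have h10 : 1 / (2 * N * (K + 1)) * q κ = 1 / 2 * (q κ / (N * (K + 1))) := by
        field_simp
      have h11 : 0 ≤ q κ / (N * (K + 1)) := by positivity
      rw [h10]
      have := (abs_le.mp hx).1
      linarith
    have hle : ∀ κ, q κ / (N * (K + 1)) ≤ q κ := by
      intro κ
      apply div_le_self (hq0 κ).le
      have e1 : 1 * 1 ≤ N * ((K : ℝ) + 1) := mul_le_mul (by linarith) hK1 (by norm_num) (by linarith)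
      linarith
    rintro (t | i) v a b hv
    · have h3 := (Nat.cast_le (α := ℝ)).2 (card_le_card (nb_Gt2 (ν := ν) (t := t) (G := H)
        (UH := UH) (lab := lab) v a b))
      refine le_trans (hfin (Sum.inl t) _ ?_) h3
      refine hone H v (bb {b} (univ.filter (fun c' => ty ν t (cr (lab v)) c'))
        univ {a} {0} univ) _ (Sum.inl t) hS.labH (hdH v) (h2H v) rfl _
        (by have := hq0 (Sum.inl t); positivity) (hle (Sum.inl t)) ?_
      rw [den_n2 hl ν hν t _ hv]
      simp only [hq, hfk]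
      rw [hN]
      ring
    · have h3 := (Nat.cast_le (α := ℝ)).2 (card_le_card (nb_Gc2 (G := Gc i)
        (UH := UH) (lab := lab) v a b))
      refine le_trans (hfin (Sum.inr i) _ ?_) h3
      refine hone (Gc i) v (bb {b} univ univ {a} {0} univ) _ (Sum.inr i)
        (hS.labc i) (hS.cls.reg i v) (h2c i v) rfl _
        (by have := hq0 (Sum.inr i); positivity) (hle (Sum.inr i)) ?_
      rw [den_c2]
      simp only [hq, hfk]
      rw [hN]
      ring
  have hcard : ∀ κ b, 2 * Dt κ ≤ (As (tk κ) UH lab b).card := by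
    intro κ b
    have h3 : 3 * (2 / 3 * ((1 - 1 / N) * (D / N))) ≤ ((As (tk κ) UH lab b).card : ℝ) := by
      apply card_big hS.bh.deg hVc hD1
      · apply mul_nonneg (by norm_num)
        apply mul_nonneg
        · have h11 : 1 / N ≤ 1 := by
            rw [div_le_one hm0]
            linarith
          linarith
        · positivity
      · intro v
        have h4 : nb H v ∩ As (tk κ) UH lab b = (nb H v ∩ cl lab (cy {b}
            (univ.filter (fun c => tk κ ≠ some c.2.1)))) \ UH := by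
          ext z
          rw [mem_inter, mem_As, mem_sdiff, mem_inter, mem_cl, mem_cy, mem_singleton, mem_filter]
          constructor
          · rintro ⟨h5, h6, h7, h8⟩
            exact ⟨⟨h5, h6, mem_univ _, h8⟩, h7⟩
          · rintro ⟨⟨h5, h6, -, h8⟩, h7⟩
            exact ⟨h5, h6, h7, h8⟩
        rw [h4]
        obtain ⟨h5, -⟩ := card_sdiff_UH (A := nb H v ∩ cl lab (cy {b}
            (univ.filter (fun c => tk κ ≠ some c.2.1)))) inter_subset_left (h2H v)
        have h6 := le_deg hS.labH hS.bh.low v (cy {b} (univ.filter (fun c => tk κ ≠ some c.2.1)))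
        have h6' := den_cell (l := l) (m := m) (r := r) (K := K) (K1 := K1) (S := S) (tk κ) b
        have h6'' : 2 / (3 * (2 * (m : ℝ) + 1)) * ((1 - δ / 4) * D) ≤
            den (cy {b} (univ.filter (fun c => tk κ ≠ some c.2.1)) : Finset (Lh l m r K K1 S)) *
              ((1 - δ / 4) * D) := by
          apply mul_le_mul_of_nonneg_right h6'
          apply mul_nonneg _ hD1'.le
          linarith
        have h7 : 2 / (3 * (2 * (m : ℝ) + 1)) * ((1 - δ / 4) * D) =
            2 / 3 * ((1 - δ / 4) * (D / N)) := by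
          rw [hN]
          field_simp
        rw [h7] at h6''
        have h8 : σ * D ≤ δ / 8 * (D / N) := by
          have e1 := hσq κ
          have e2 := mul_le_mul_of_nonneg_left (hqd κ) hδ0.le
          linarith
        have h9 : 40 * δ ≤ 1 / N := by
          rw [hδ]
          have e1 : N ≤ N * N := le_mul_of_one_le_right hm0.le (by linarith)
          have e2 : N ^ 2 * 1 ≤ N ^ 2 * ((K : ℝ) + 1) :=
            mul_le_mul_of_nonneg_left hK1 (by positivity)
          have e3 : 40 * (1 / (40 * N ^ 2 * ((K : ℝ) + 1))) = 1 / (N ^ 2 * (K + 1)) := by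
            field_simp
          rw [e3]
          apply one_div_le_one_div_of_le hm0
          rw [pow_two] at e2 ⊢
          linarith
        have h10 : 0 ≤ (D : ℝ) / N := by positivity
        have h11 : 40 * δ * (D / N) ≤ 1 / N * (D / N) := mul_le_mul_of_nonneg_right h9 h10
        have h12 : 0 ≤ δ * (D / N) := by positivity
        have h13 : (1 - 1 / N) * (D / N) = D / N - 1 / N * (D / N) := by ring
        have h14 : (1 - δ / 4) * (D / N) = D / N - δ * (D / N) / 4 := by ring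
        rw [h13]
        rw [h14] at h6''
        linarith
    have h4 : 2 * ((Dt κ : ℕ) : ℝ) ≤ ((As (tk κ) UH lab b).card : ℝ) := by
      have h5 := hqd κ
      have h6 : 0 ≤ 1 - 1 / N := by
        have h11 : 1 / N ≤ 1 := by
          rw [div_le_one hm0]
          linarith
        linarith
      have h7 : (1 - 1 / N) * q κ ≤ (1 - 1 / N) * (D / N) := mul_le_mul_of_nonneg_left h5 h6
      have h8 := hD κ
      linarith
    exact_mod_cast h4
  have hex : ∀ (a : ZMod (2 * m + 1)) (y : Fin m) (κ : Option (ZMod 3) ⊕ Fin n),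
      ∃ M : ℕ → SimpleGraph V,
      (∀ i, M i ≤ GK κ ∧ IsMat (M i)) ∧
      (∀ i v v', (M i).Adj v v' →
        (v ∈ As (tk κ) UH lab (a + ((y : ℕ) + 1 : ℕ)) ∧
          v' ∈ As (tk κ) UH lab (a - ((y : ℕ) + 1 : ℕ))) ∨
        (v ∈ As (tk κ) UH lab (a - ((y : ℕ) + 1 : ℕ)) ∧
          v' ∈ As (tk κ) UH lab (a + ((y : ℕ) + 1 : ℕ)))) ∧
      (∀ i j, i ≠ j → ∀ v v', (M i).Adj v v' → ¬ (M j).Adj v v') ∧
      ∀ i, i < Dt κ →
        ∀ v ∈ As (tk κ) UH lab (a + ((y : ℕ) + 1 : ℕ)) ∪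
          As (tk κ) UH lab (a - ((y : ℕ) + 1 : ℕ)),
        v ∉ univ.filter (fun v => kp (lab v) = a ∧ io (lab v) = 0) →
        (nb (M i) v).Nonempty := by
    intro a y κ
    exact one_key hFAC hm (tk κ) (GK κ) (q κ) δ (Dt κ) (hq0 κ) hδ (hD κ) (hdeg κ) (hop κ)
      (hcard κ) a y
  choose MM h3 using hex
  have hK : ∀ κ κ' v v', (GK κ).Adj v v' → (GK κ').Adj v v' → κ = κ' := by
    rintro (t | i) (t' | j) v v' h4 h5
    · rw [ty_unique hl h4.2 h5.2]
    · exact absurd h4.1 (hS.cls.disH j v v' h5)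
    · exact absurd h5.1 (hS.cls.disH i v v' h4)
    · by_contra h6
      exact hS.cls.dis i j (fun h7 => h6 (by rw [h7])) v v' h4 h5
  have hfil : ∀ (p : Fin w → Prop) (i1 i2 : DecidablePred p),
      (@Finset.filter _ p i1 univ) = @Finset.filter _ p i2 univ := by
    intro p i1 i2
    have h4 : i1 = i2 := Subsingleton.elim _ _
    rw [h4]
  have hDt' : ∀ κ, (m - 1) * (@Finset.filter _ (fun s => key s = κ)
      (fun s => Classical.propDecidable _) univ).card = Dt κ := by
    intro κ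
    simp only [hDt]
    rw [hfil (fun s => key s = κ) (fun s => Classical.propDecidable _)
      (fun s => instDecidableEqSum (key s) κ)]
  obtain ⟨Nd, k1, k2, k3, k4, k5⟩ := combine key GK tk hK MM (fun a y t i => (h3 a y t).1 i)
    (fun a y t i v v' h => (h3 a y t).2.1 i v v' h)
    (fun a y t i j hij v v' h => (h3 a y t).2.2.1 i j hij v v' h)
    (fun a y t i hi v hv hv' => (h3 a y t).2.2.2 i (lt_of_lt_of_eq hi (hDt' t)) v hv hv')
  refine ⟨Nd, k2, ?_, ?_, k3, k4, ?_⟩
  · intro x i hx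
    have h4 := k1 x
    rw [(hkinr _ _).2 hx] at h4
    exact h4
  · intro x hx v v' h
    have h4 := k1 x
    rw [(hkinl _ _).2 ⟨hx, rfl⟩] at h4
    exact h4 h
  · intro x v h4 h5 h6 h7
    refine k5 x v h4 h5 ?_ h7
    cases h8 : ι x.2.2 with
    | none =>
      rw [(hkinl _ _).2 ⟨h8, rfl⟩]
      exact h6
    | some i =>
      rw [(hkinr _ _).2 h8]
      simp [htk]

end Pool.Agent.Work.MP_db9399_ot.helper95
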